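import Pool.Prelude.Def_F_c31e40fa
import Pool.Agent.R240.Univ4
import Pool.Agent.H548R3.MB.Eff2

set_option autoImplicit false

open Filter Topology Set Metric Complex N62a1eb23

namespace Pool.Agent.Results.MP_c35c17_an.AllDirections

/-- The map `z ↦ z ^ d + c`. -/
def f (d : ℕ) (c : ℂ) : ℂ → ℂ := fun z => z ^ d + c

/-- The point `f_c^n (0)` of the critical orbit, as a polynomial in the parameter `c`. -/
def P (d n : ℕ) (c : ℂ) : ℂ := (f d c)^[n] 0

/-- The parameters `c` for which `z ^ d + c` has an attracting cycle. -/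
def Hyp (d : ℕ) : Set ℂ := {c | ∃ m z, IsAttractingCycle (f d c) m z}

/-- The perturbation `(id + t Φ) ∘ f_c` of `f_c`. For `Φ = 1` it is `f_(c + t)`. -/
def g (d : ℕ) (c : ℂ) (Φ : ℂ → ℂ) (t : ℂ) : ℂ → ℂ := fun z => f d c z + t * Φ (f d c z)

/-- **Uniform transversality of the unicritical family in all directions.** For every parameter
of every Multibrot set, an arbitrary holomorphic perturbation of the map moves the iterates of the
critical point at most about four times as fast as the change of the parameter does. Hence if there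
are no attracting cycles for the parameters near `c`, then the whole critical orbit is
infinitesimally stable under all holomorphic perturbations. -/
theorem result :
    ∃ K : ℝ, 0 < K ∧ ∀ d : ℕ, 2 ≤ d → ∀ c ∈ multibrotSet d, ∀ (Φ : ℂ → ℂ) (M : ℝ),
      DifferentiableOn ℂ Φ (ball 0 4) → (∀ x ∈ ball (0 : ℂ) 4, ‖Φ x‖ ≤ M) → ∀ n : ℕ,
        DifferentiableAt ℂ (fun t : ℂ => (g d c Φ t)^[n] 0) 0 ∧
        ‖deriv (fun t : ℂ => (g d c Φ t)^[n] 0) 0‖ ≤
          M * (4 * ‖deriv (P d n) c‖ + ‖P d n c‖ * (2 + |Real.log ‖P d n c‖|)) ∧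
        ∀ r : ℝ, Disjoint (ball c r) (Hyp d) →
          r * ‖deriv (fun t : ℂ => (g d c Φ t)^[n] 0) 0‖ ≤
            K * M * ‖P d n c‖ * (1 + |Real.log ‖P d n c‖|) := by
  refine ⟨4 * Pool.Agent.R240.KN + 4, by have := Pool.Agent.R240.KN_pos; positivity, ?_⟩
  intro d hd c hc Φ M hΦ hM n
  have hM0 : 0 ≤ M := (norm_nonneg _).trans (hM 0 (mem_ball_self (by norm_num)))
  have hK := Pool.Agent.R240.KN_pos
  have h1 : HasDerivAt (fun t : ℂ => (g d c Φ t)^[n] 0) (Pool.Agent.R240.Univ.vel d c Φ n) 0 :=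
    Pool.Agent.R240.Univ.vel_deriv hd hc hΦ n
  have h2 : deriv (P d n) c = Pool.Agent.R240.Univ.vel d c (fun _ => 1) n :=
    (Pool.Agent.R240.Univ.vel_one c n).deriv
  have h3 : ‖deriv (fun t : ℂ => (g d c Φ t)^[n] 0) 0‖ ≤
      M * (4 * ‖deriv (P d n) c‖ + ‖P d n c‖ * (2 + |Real.log ‖P d n c‖|)) := by
    rw [h1.deriv, h2]
    exact Pool.Agent.R240.Univ.univ hd hc n hΦ hM
  refine ⟨h1.differentiableAt, h3, ?_⟩
  intro r hr
  obtain ⟨L, hL⟩ : ∃ L, L = |Real.log ‖P d n c‖| := ⟨_, rfl⟩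
  have hL0 : 0 ≤ L := by rw [hL]; exact abs_nonneg _
  rw [← hL] at h3 ⊢
  have hP0 := norm_nonneg (P d n c)
  rcases le_or_gt r 0 with hr0 | hr0
  · have : r * ‖deriv (fun t : ℂ => (g d c Φ t)^[n] 0) 0‖ ≤ 0 :=
      mul_nonpos_of_nonpos_of_nonneg hr0 (norm_nonneg _)
    refine this.trans ?_
    positivity
  have hc2 := Pool.Agent.R240.Univ.norm_c_le hd hc
  -- the derivative in the parameter
  have hD : r * ‖deriv (P d n) c‖ ≤ Pool.Agent.R240.KN * ‖P d n c‖ * (1 + L) := by
    rcases Nat.eq_zero_or_pos n with rfl | hn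
    · have : deriv (P d 0) c = 0 := by
        have : P d 0 = fun _ => 0 := rfl
        rw [this, deriv_const]
      rw [this, norm_zero, mul_zero]
      positivity
    · obtain ⟨N, rfl⟩ : ∃ N, n = N + 1 := ⟨n - 1, by omega⟩
      obtain ⟨c', h4, h5⟩ := Pool.Agent.R240.newton hd
        (Pool.Agent.R240.Univ.norm_P_le hd hc (N + 1)) hc2
      have h6 : IsAttractingCycle (f d c') (N + 1) 0 :=
        Pool.Agent.H548R3.MB.att_of_centre hd (by omega) h4
      rw [hL]
      refine le_trans ?_ h5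
      apply mul_le_mul_of_nonneg_right _ (norm_nonneg _)
      by_contra hcon
      push Not at hcon
      exact Set.disjoint_left.1 hr (by rw [mem_ball, dist_eq_norm]; exact hcon) ⟨_, _, h6⟩
  have hr2 : r ≤ 2 := by
    by_contra hcon
    push Not at hcon
    have h0 : (f d 0)^[1] 0 = 0 := by
      simp only [Function.iterate_one, f, add_zero]
      exact zero_pow (by omega)
    have h6 : IsAttractingCycle (f d 0) 1 0 := Pool.Agent.H548R3.MB.att_of_centre hd (by omega) h0
    refine Set.disjoint_left.1 hr ?_ ⟨_, _, h6⟩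
    rw [mem_ball, dist_eq_norm, zero_sub, norm_neg]
    linarith
  calc r * ‖deriv (fun t : ℂ => (g d c Φ t)^[n] 0) 0‖
      ≤ r * (M * (4 * ‖deriv (P d n) c‖ + ‖P d n c‖ * (2 + L))) := by gcongr
    _ = M * (4 * (r * ‖deriv (P d n) c‖) + r * (‖P d n c‖ * (2 + L))) := by ring
    _ ≤ M * (4 * (Pool.Agent.R240.KN * ‖P d n c‖ * (1 + L)) + 2 * (‖P d n c‖ * (2 + L))) := by
        gcongr
    _ ≤ M * (4 * (Pool.Agent.R240.KN * ‖P d n c‖ * (1 + L)) + 2 * (‖P d n c‖ * (2 + 2 * L))) := by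
        gcongr
        linarith
    _ = _ := by ring

end Pool.Agent.Results.MP_c35c17_an.AllDirections
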