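import Mathlib
import Pool.Prelude.Def_F_c31e40fa
import Pool.Agent.R240.LF2

set_option autoImplicit false

open Filter Topology Set Metric Complex MeasureTheory N62a1eb23
open scoped ComplexConjugate

namespace Pool.Agent.Results.MP_70a088_an.CoboundaryCriterion

/-- The map `z ↦ z ^ d + c`. -/
def f (d : ℕ) (c : ℂ) : ℂ → ℂ := fun z => z ^ d + c

/-- The filled Julia set: the points with bounded orbits. -/
def filledJulia (d : ℕ) (c : ℂ) : Set ℂ := {z | ∃ B : ℝ, ∀ n : ℕ, ‖(f d c)^[n] z‖ ≤ B}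

/-- The Julia set of the polynomial is the boundary of the filled Julia set. -/
def julia (d : ℕ) (c : ℂ) : Set ℂ := frontier (filledJulia d c)

/-- `μ` is an invariant line field of `z ^ d + c` supported on the Julia set. -/
def InvariantLineField (d : ℕ) (c : ℂ) (μ : ℂ → ℂ) : Prop :=
  Measurable μ ∧
    (∃ X : Set ℂ, MeasurableSet X ∧ 0 < volume X ∧ X ⊆ julia d c ∧ (∀ z ∈ X, ‖μ z‖ = 1) ∧
      ∀ z, z ∉ X → μ z = 0) ∧
    ∀ᵐ z : ℂ, μ (f d c z) * conj (deriv (f d c) z) / deriv (f d c) z = μ z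

/-- The potential of the restriction of `μ` to the Julia set. For bounded `μ` this is a
quasiconformal vector field, with `∂̄`-derivative `- π μ` on the Julia set and `0` off it. -/
noncomputable def u (d : ℕ) (c : ℂ) (μ : ℂ → ℂ) (w : ℂ) : ℂ := ∫ x in julia d c, μ x / (x - w)

/-- The rational function `f'(z) / (x - z) - 1 / (x - f z)` of `x`. -/
noncomputable def κ (d : ℕ) (c z x : ℂ) : ℂ := deriv (f d c) z / (x - z) - 1 / (x - f d c z)

theorem deriv_f (d : ℕ) (c z : ℂ) : deriv (f d c) z = d * z ^ (d - 1) :=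
  ((hasDerivAt_pow d z).add_const c).deriv

theorem κ_eq (d : ℕ) (c z x : ℂ) : κ d c z x = Pool.Agent.R240.LF.ker d c z x := by
  unfold κ Pool.Agent.R240.LF.ker
  rw [deriv_f, mul_one_div]
  rfl

theorem line_iff (d : ℕ) (c : ℂ) (μ : ℂ → ℂ) :
    InvariantLineField d c μ ↔ Pool.Agent.R240.LF.LineField d c μ := by
  have h : ∀ z, μ (f d c z) * conj (deriv (f d c) z) / deriv (f d c) z =
      Pool.Agent.R240.Cau.pb d c μ z := by
    intro z
    unfold Pool.Agent.R240.Cau.pb
    rw [deriv_f, mul_div_assoc]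
    rfl
  unfold InvariantLineField Pool.Agent.R240.LF.LineField
  simp only [h]
  constructor
  · rintro ⟨h1, h2, h3⟩
    exact ⟨h1, h3, h2⟩
  · rintro ⟨h1, h2, h3⟩
    exact ⟨h1, h3, h2⟩

theorem julia_meas (d : ℕ) (c : ℂ) : MeasurableSet (julia d c) := isClosed_frontier.measurableSet

theorem u_eq {d : ℕ} {c : ℂ} {μ : ℂ → ℂ} (hs : ∀ x, x ∉ julia d c → μ x = 0) (w : ℂ) :
    u d c μ w = Pool.Agent.R240.Cau.cau μ w := by
  unfold u Pool.Agent.R240.Cau.cau
  rw [← integral_indicator (julia_meas d c)]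
  congr 1
  funext x
  by_cases hx : x ∈ julia d c
  · rw [indicator_of_mem hx, mul_one_div]
  · rw [indicator_of_notMem hx, hs x hx, zero_mul]

/-- **Invariant line fields and quasiconformal coboundaries.** For every parameter of every
Multibrot set the polynomial `f = z ^ d + c` has an invariant line field on its Julia set if and
only if the constant `1` is of the form `u ∘ f - f' u` on the filled Julia set for a quasiconformal
vector field `u` given by a bounded function on the Julia set, and if and only if an `L¹` inequality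
holds for the linear combinations of the rational functions `f'(z) / (x - z) - 1 / (x - f z)`. -/
theorem result {d : ℕ} (hd : 2 ≤ d) {c : ℂ} (hc : c ∈ multibrotSet d) :
    ((∃ μ, InvariantLineField d c μ) ↔
      ∃ (μ : ℂ → ℂ) (B : ℝ), Measurable μ ∧ (∀ x, ‖μ x‖ ≤ B) ∧
        ∀ z ∈ filledJulia d c, u d c μ (f d c z) - deriv (f d c) z * u d c μ z = 1) ∧
    ((∃ μ, InvariantLineField d c μ) ↔
      ∃ C : ℝ, ∀ (s : Finset ℂ) (a : ℂ → ℂ), (∀ z ∈ s, z ∈ filledJulia d c) →
        ‖∑ z ∈ s, a z‖ ≤ C * ∫ x in julia d c, ‖∑ z ∈ s, a z * κ d c z x‖) := by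
  have hc2 := Pool.Agent.R240.Univ.norm_c_le hd hc
  have h12 : (∃ μ, InvariantLineField d c μ) → ∃ μ, Pool.Agent.R240.LF.Cob d c μ := by
    rintro ⟨μ, hμ⟩
    exact ⟨_, (Pool.Agent.R240.LF.cob_of_line hd hc ((line_iff d c μ).1 hμ)).2⟩
  have h21 : (∃ μ, Pool.Agent.R240.LF.Cob d c μ) → ∃ μ, InvariantLineField d c μ := by
    rintro ⟨μ, hμ⟩
    obtain ⟨ν, hν⟩ := Pool.Agent.R240.LF.line_of_cob hd hc hμ
    exact ⟨ν, (line_iff d c ν).2 hν⟩
  refine ⟨⟨fun h => ?_, fun h => ?_⟩, ⟨fun h => ?_, fun h => ?_⟩⟩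
  · obtain ⟨μ, ⟨B, hb⟩, hs, hcob⟩ := h12 h
    refine ⟨μ, B, hb.meas, hb.bdd, fun z hz => ?_⟩
    rw [u_eq (d := d) (c := c) hs, u_eq (d := d) (c := c) hs, deriv_f]
    exact hcob z hz
  · obtain ⟨μ, B, hm, hb, hcob⟩ := h
    apply h21
    obtain ⟨μ', hμ'⟩ : ∃ μ' : ℂ → ℂ, μ' = (julia d c).indicator μ := ⟨_, rfl⟩
    have hs : ∀ x, x ∉ julia d c → μ' x = 0 := by
      intro x hx
      rw [hμ', indicator_of_notMem hx]
    have hB0 : 0 ≤ B := (norm_nonneg _).trans (hb 0)
    have hu : ∀ w, u d c μ w = Pool.Agent.R240.Cau.cau μ' w := by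
      intro w
      rw [← u_eq hs]
      unfold u
      apply setIntegral_congr_fun (julia_meas d c)
      intro x hx
      simp only
      rw [hμ', indicator_of_mem hx]
    refine ⟨μ', ⟨B, ⟨?_, fun x => ?_, fun x hx => ?_⟩⟩, hs, fun z hz => ?_⟩
    · rw [hμ']
      exact hm.indicator (julia_meas d c)
    · rw [hμ']
      by_cases hx : x ∈ julia d c
      · rw [indicator_of_mem hx]
        exact hb x
      · rw [indicator_of_notMem hx, norm_zero]
        exact hB0
    · apply hs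
      intro h1
      have := Pool.Agent.R240.LF.FJ_le hd hc2 (Pool.Agent.R240.LF.JJ_sub hd hc2 h1)
      linarith
    · have h1 := hcob z hz
      rw [hu, hu, deriv_f] at h1
      exact h1
  · obtain ⟨μ, hμ⟩ := h12 h
    obtain ⟨C, hC⟩ := Pool.Agent.R240.LF.ineq_of_cob hd hc hμ
    refine ⟨C, fun s a hs => ?_⟩
    simp only [κ_eq]
    exact hC s a hs
  · obtain ⟨C, hC⟩ := h
    apply h21
    apply Pool.Agent.R240.LF.cob_of_ineq hd hc (C := C)
    intro s a hs
    have h1 := hC s a hs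
    simp only [κ_eq] at h1
    exact h1

end Pool.Agent.Results.MP_70a088_an.CoboundaryCriterion
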